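import Mathlib

/-!
# Positions of small terms in weakly consecutive sequences

A permutation `σ` of `[k] = {1, …, k}` is a weakly consecutive sequence (WCS) if for all
positions `i, j` and all positive integers `m`: `m ∣ σ i` and `m ∣ i - j` imply `m ∣ σ j`.

We prove that in every WCS of length `k` every value `m < k / 2` occurs among the first `m` or
among the last `m` entries.

Idea of the proof for `m = 1`.  Suppose `x = σ 1 > 1` and `y = σ k > 1`; reversing the sequence
we may assume `y < x`.  Counting multiples shows that `x` and `y` divide `k`, and that they are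
coprime.  Let `q` be a prime factor of `y` and look at the value `w = k / q + 1`.  Counting shows
that the positions of the multiples of `w` are `w - r, 2 w - r, …, (q-1) w - r` with
`0 ≤ r < q`, and `r = 0` since otherwise one of these positions would be a multiple of `q` and
would carry a multiple of `q w = k + q > k`.  So `w ∣ σ w`.  But `w ≡ 1 (mod x)`, so `x ∣ σ w`,
hence `x w ∣ σ w ≤ k`, and this is impossible because `x w > k`.
The general case follows by passing to the slice formed by the multiples of `m`.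
-/

namespace Pool.Agent.Results.MP_a4c3d5_co.SmallTerms

open Finset

/-- Auxiliary (proof-internal) form of a weakly consecutive sequence, as a function on `ℕ`. -/
structure W (k : ℕ) (s : ℕ → ℕ) : Prop where
  pos : ∀ i, 1 ≤ i → i ≤ k → 1 ≤ s i
  le : ∀ i, 1 ≤ i → i ≤ k → s i ≤ k
  inj : ∀ i j, 1 ≤ i → i ≤ k → 1 ≤ j → j ≤ k → s i = s j → i = j
  div : ∀ i j m, 1 ≤ i → i ≤ k → 1 ≤ j → j ≤ k → m ∣ s i → i ≡ j [MOD m] → m ∣ s j

/-- Pigeonhole: at most `k / d` positions carry a multiple of `d`. -/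
theorem pig {k : ℕ} {s : ℕ → ℕ} (h : W k s) {d : ℕ} (hd : 0 < d) (T : Finset ℕ)
    (hT : ∀ i ∈ T, 1 ≤ i ∧ i ≤ k ∧ d ∣ s i) : T.card ≤ k / d := by
  have h1 : T.card ≤ (Finset.Icc 1 (k / d)).card := by
    apply Finset.card_le_card_of_injOn (fun i => s i / d)
    · intro i hi
      obtain ⟨h1, h2, h3⟩ := hT i hi
      have hp := h.pos i h1 h2
      have hl := h.le i h1 h2
      simp only [Finset.coe_Icc, Set.mem_Icc]
      refine ⟨?_, Nat.div_le_div_right hl⟩
      exact Nat.div_pos (Nat.le_of_dvd hp h3) hd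
    · intro i hi j hj hij
      obtain ⟨h1, h2, h3⟩ := hT i hi
      obtain ⟨h1', h2', h3'⟩ := hT j hj
      apply h.inj i j h1 h2 h1' h2'
      simp only at hij
      rw [← Nat.div_mul_cancel h3, ← Nat.div_mul_cancel h3', hij]
  simpa using h1

/-- Surjectivity. -/
theorem surj {k : ℕ} {s : ℕ → ℕ} (h : W k s) {v : ℕ} (hv1 : 1 ≤ v) (hvk : v ≤ k) :
    ∃ i, 1 ≤ i ∧ i ≤ k ∧ s i = v := by
  have hinj : Set.InjOn s (Finset.Icc 1 k : Finset ℕ) := by
    intro i hi j hj hij
    simp only [Finset.coe_Icc, Set.mem_Icc] at hi hj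
    exact h.inj i j hi.1 hi.2 hj.1 hj.2 hij
  have hsub : (Finset.Icc 1 k).image s ⊆ Finset.Icc 1 k := by
    intro x hx
    obtain ⟨i, hi, rfl⟩ := Finset.mem_image.mp hx
    rw [Finset.mem_Icc] at hi ⊢
    exact ⟨h.pos i hi.1 hi.2, h.le i hi.1 hi.2⟩
  have heq : (Finset.Icc 1 k).image s = Finset.Icc 1 k := by
    apply Finset.eq_of_subset_of_card_le hsub
    rw [Finset.card_image_of_injOn hinj]
  have : v ∈ (Finset.Icc 1 k).image s := by
    rw [heq, Finset.mem_Icc]; exact ⟨hv1, hvk⟩
  obtain ⟨i, hi, hiv⟩ := Finset.mem_image.mp this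
  rw [Finset.mem_Icc] at hi
  exact ⟨i, hi.1, hi.2, hiv⟩

/-- The first position `a ∈ [1, d]` of the class of multiples of `d`. -/
theorem first {k : ℕ} {s : ℕ → ℕ} (h : W k s) {d : ℕ} (hd : 0 < d) (hdk : d ≤ k) :
    ∃ a, 1 ≤ a ∧ a ≤ d ∧ d ∣ s a ∧ k < a + k / d * d := by
  obtain ⟨b, hb1, hbk, hb⟩ := surj h hd hdk
  -- least positive residue
  obtain ⟨a, ha1, had, hab⟩ : ∃ a, 1 ≤ a ∧ a ≤ d ∧ b ≡ a [MOD d] := by
    refine ⟨(b - 1) % d + 1, by omega, ?_, ?_⟩
    · have := Nat.mod_lt (b - 1) hd; omega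
    · have h1 : b = (b - 1) + 1 := by omega
      have h2 : (b - 1) % d ≡ b - 1 [MOD d] := Nat.mod_modEq _ _
      have h3 := h2.add_right 1
      rw [← h1] at h3
      exact h3.symm
  have hda : d ∣ s a := h.div b a d hb1 hbk ha1 (le_trans had hdk) (by rw [hb]) hab
  refine ⟨a, ha1, had, hda, ?_⟩
  by_contra hcon
  push Not at hcon
  -- k/d+1 positions
  have hT := pig h hd ((Finset.range (k / d + 1)).image (fun i => a + i * d)) (by
    intro i hi
    obtain ⟨j, hj, rfl⟩ := Finset.mem_image.mp hi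
    rw [Finset.mem_range] at hj
    have hjd : j * d ≤ k / d * d := Nat.mul_le_mul_right d (by omega)
    have hle : a + j * d ≤ k := by omega
    refine ⟨by omega, hle, ?_⟩
    apply h.div a (a + j * d) d ha1 (le_trans had hdk) (by omega) hle hda
    have : a + j * d ≡ a [MOD d] := by
      simp [Nat.ModEq]
    exact this.symm)
  rw [Finset.card_image_of_injective] at hT
  · simp at hT
  · intro i j hij
    simp only at hij
    have : i * d = j * d := by omega
    exact Nat.eq_of_mul_eq_mul_right hd this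

/-- Multiples of `d` sit in one residue class. -/
theorem cls {k : ℕ} {s : ℕ → ℕ} (h : W k s) {d : ℕ} (hd : 0 < d) {a b : ℕ}
    (ha1 : 1 ≤ a) (hak : a ≤ k) (hb1 : 1 ≤ b) (hbk : b ≤ k) (hda : d ∣ s a) (hdb : d ∣ s b) :
    a ≡ b [MOD d] := by
  by_contra hne
  have hdk : d ≤ k := le_trans (Nat.le_of_dvd (h.pos a ha1 hak) hda) (h.le a ha1 hak)
  obtain ⟨c, hc1, hcd, hdc, hck⟩ := first h hd hdk
  -- one of a, b not congruent to c
  obtain ⟨e, he1, hek, hde, hce⟩ : ∃ e, 1 ≤ e ∧ e ≤ k ∧ d ∣ s e ∧ ¬ c ≡ e [MOD d] := by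
    by_cases hca : c ≡ a [MOD d]
    · refine ⟨b, hb1, hbk, hdb, fun hcb => hne (hca.symm.trans hcb)⟩
    · exact ⟨a, ha1, hak, hda, hca⟩
  have hmem : ∀ i ∈ (Finset.range (k / d)).image (fun i => c + i * d),
      (1 ≤ i ∧ i ≤ k ∧ d ∣ s i) ∧ c ≡ i [MOD d] := by
    intro i hi
    obtain ⟨j, hj, rfl⟩ := Finset.mem_image.mp hi
    rw [Finset.mem_range] at hj
    have hjd : (j + 1) * d ≤ k / d * d := Nat.mul_le_mul_right d (by omega)
    have hkd : k / d * d ≤ k := Nat.div_mul_le_self k d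
    have hle : c + j * d ≤ k := by
      have : (j + 1) * d = j * d + d := by ring
      omega
    have hmod : c ≡ c + j * d [MOD d] := by
      have : c + j * d ≡ c [MOD d] := by simp [Nat.ModEq]
      exact this.symm
    exact ⟨⟨by omega, hle, h.div c (c + j * d) d hc1 (le_trans hcd hdk) (by omega) hle hdc hmod⟩,
      hmod⟩
  have he_not : e ∉ (Finset.range (k / d)).image (fun i => c + i * d) :=
    fun hmem' => hce (hmem e hmem').2
  have hT := pig h hd (insert e ((Finset.range (k / d)).image (fun i => c + i * d))) (by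
    intro i hi
    rcases Finset.mem_insert.mp hi with rfl | hi
    · exact ⟨he1, hek, hde⟩
    · exact (hmem i hi).1)
  rw [Finset.card_insert_of_notMem he_not, Finset.card_image_of_injective] at hT
  · simp at hT
  · intro i j hij
    simp only at hij
    have : i * d = j * d := by omega
    exact Nat.eq_of_mul_eq_mul_right hd this

/-- Anything dividing the first entry divides the length. -/
theorem dvd_first {k : ℕ} {s : ℕ → ℕ} (h : W k s) (hk : 1 ≤ k) {d : ℕ} (hd : 0 < d)
    (hd1 : d ∣ s 1) : d ∣ k := by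
  have hdk : d ≤ k := le_trans (Nat.le_of_dvd (h.pos 1 le_rfl hk) hd1) (h.le 1 le_rfl hk)
  obtain ⟨c, hc1, hcd, hdc, hck⟩ := first h hd hdk
  have hmod : c ≡ 1 [MOD d] := cls h hd hc1 (le_trans hcd hdk) le_rfl hk hdc hd1
  have hkd : k / d * d ≤ k := Nat.div_mul_le_self k d
  -- c = 1
  have hc : c = 1 := by
    have h2 := (Nat.modEq_iff_dvd' hc1).mp hmod.symm
    have := Nat.eq_zero_of_dvd_of_lt h2 (by omega)
    omega
  subst hc
  have : k / d * d = k := by omega
  exact ⟨k / d, by rw [mul_comm]; exact this.symm⟩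

/-- Anything dividing the last entry divides the length. -/
theorem dvd_last {k : ℕ} {s : ℕ → ℕ} (h : W k s) (hk : 1 ≤ k) {d : ℕ} (hd : 0 < d)
    (hdk' : d ∣ s k) : d ∣ k := by
  have hdk : d ≤ k := le_trans (Nat.le_of_dvd (h.pos k hk le_rfl) hdk') (h.le k hk le_rfl)
  obtain ⟨c, hc1, hcd, hdc, hck⟩ := first h hd hdk
  have hmod : c ≡ k [MOD d] := cls h hd hc1 (le_trans hcd hdk) hk le_rfl hdc hdk'
  have hkd : k / d * d ≤ k := Nat.div_mul_le_self k d
  have h2 := (Nat.modEq_iff_dvd' (le_trans hcd hdk)).mp hmod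
  obtain ⟨t, ht⟩ := h2
  -- k = c + d t, t ≤ k/d - 1
  have hk_eq : k = c + d * t := by omega
  have ht2 : d * t < d * (k / d) := by
    have : k / d * d = d * (k / d) := mul_comm _ _
    omega
  have ht3 : t < k / d := lt_of_mul_lt_mul_left ht2 (Nat.zero_le d)
  have ht4 : d * (t + 1) ≤ d * (k / d) := Nat.mul_le_mul_left d ht3
  have ht5 : d * (t + 1) = d * t + d := by ring
  have hcm : d * (k / d) = k / d * d := mul_comm _ _
  have hcd' : c = d := by omega
  rw [hk_eq, hcd']
  exact ⟨1 + t, by ring⟩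

/-- Core: it is impossible that `1 < s k < s 1`. -/
theorem core {k : ℕ} {s : ℕ → ℕ} (h : W k s) (hk : 1 ≤ k) (hy : 1 < s k)
    (hxy : s k < s 1) : False := by
  obtain ⟨q, hq, hqy⟩ := Nat.exists_prime_and_dvd (n := s k) (by omega)
  set x := s 1 with hx
  have hx0 : 0 < x := by omega
  have hqle : q ≤ s k := Nat.le_of_dvd (by omega) hqy
  have hqx : q < x := by omega
  have hq2 := hq.two_le
  have hxk : x ∣ k := dvd_first h hk hx0 (by rw [hx])
  have hqk : q ∣ k := dvd_last h hk hq.pos hqy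
  -- q does not divide x
  have hqnx : ¬ q ∣ x := by
    intro hqx'
    have hmod : 1 ≡ k [MOD q] := cls h hq.pos le_rfl hk hk le_rfl (by rw [← hx]; exact hqx') hqy
    have h1 : k % q = 0 := Nat.mod_eq_zero_of_dvd hqk
    unfold Nat.ModEq at hmod
    rw [h1, Nat.mod_eq_of_lt (by omega : 1 < q)] at hmod
    omega
  have hcop : Nat.Coprime x q := (Nat.Coprime.symm ((Nat.Prime.coprime_iff_not_dvd hq).mpr hqnx))
  -- k = q * x * z
  obtain ⟨z, hz⟩ := Nat.Coprime.mul_dvd_of_dvd_of_dvd hcop hxk hqk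
  have hz0 : 0 < z := by
    rcases Nat.eq_zero_or_pos z with h0 | h0
    · rw [h0] at hz; omega
    · exact h0
  -- w = x z + 1
  set w := x * z + 1 with hw
  have hxz : x ≤ x * z := Nat.le_mul_of_pos_right x hz0
  have hkw : k + q = q * w := by rw [hz, hw]; ring
  have hw0 : 0 < w := by omega
  have hqw : q < w := by omega
  have hwk : w ≤ k := by
    have : 2 * w ≤ q * w := Nat.mul_le_mul_right w hq2
    omega
  have hkdiv : k / w = q - 1 := by
    have h1 : k = (w - q) + w * (q - 1) := by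
      have : w * (q - 1) = q * w - w := by
        rw [Nat.mul_sub, mul_one, mul_comm]
      have h2 : w ≤ q * w := Nat.le_mul_of_pos_left w hq.pos
      omega
    rw [h1, Nat.add_mul_div_left _ _ hw0, Nat.div_eq_of_lt (by omega), zero_add]
  obtain ⟨a, ha1, haw, hda, hak⟩ := first h hw0 hwk
  rw [hkdiv] at hak
  have hqw1 : (q - 1) * w = q * w - w := by rw [Nat.sub_mul, one_mul]
  have hwqw : w ≤ q * w := Nat.le_mul_of_pos_left w hq.pos
  have har : w < a + q := by omega
  -- all positions a + i w with i < q - 1 carry multiples of w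
  have hall : ∀ i, i < q - 1 → a + i * w ≤ k ∧ w ∣ s (a + i * w) := by
    intro i hi
    have h1 : (i + 1) * w ≤ (q - 1) * w := Nat.mul_le_mul_right w (by omega)
    have h2 : (i + 1) * w = i * w + w := by ring
    have h3 : a + i * w ≤ k := by omega
    refine ⟨h3, ?_⟩
    apply h.div a (a + i * w) w ha1 (le_trans haw hwk) (by omega) h3 hda
    have : a + i * w ≡ a [MOD w] := by simp [Nat.ModEq]
    exact this.symm
  -- positions divisible by q carry multiples of q
  have hqpos : ∀ i, 1 ≤ i → i ≤ k → q ∣ i → q ∣ s i := by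
    intro i hi1 hik hqi
    apply h.div k i q hk le_rfl hi1 hik hqy
    have h1 : k % q = 0 := Nat.mod_eq_zero_of_dvd hqk
    have h2 : i % q = 0 := Nat.mod_eq_zero_of_dvd hqi
    unfold Nat.ModEq
    rw [h1, h2]
  -- a = w
  have haeq : a = w := by
    by_contra hne
    have hr1 : 1 ≤ w - a := by omega
    have hr2 : w - a < q := by omega
    by_cases hqw' : q ∣ w
    · -- a must be divisible by q
      have hqa : q ∣ s a := dvd_trans hqw' hda
      have hmod : a ≡ k [MOD q] := cls h hq.pos ha1 (le_trans haw hwk) hk le_rfl hqa hqy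
      have h1 : k % q = 0 := Nat.mod_eq_zero_of_dvd hqk
      unfold Nat.ModEq at hmod
      rw [h1] at hmod
      have hqa' : q ∣ a := Nat.dvd_of_mod_eq_zero hmod
      have hqr : q ∣ w - a := Nat.dvd_sub hqw' hqa'
      have := Nat.eq_zero_of_dvd_of_lt hqr hr2
      omega
    · -- there is i < q - 1 with q ∣ a + i w
      have hcopw : Nat.Coprime w q := Nat.Coprime.symm ((Nat.Prime.coprime_iff_not_dvd hq).mpr hqw')
      obtain ⟨i, hiq, hi⟩ : ∃ i, i < q ∧ q ∣ a + i * w := by
        have : Fact q.Prime := ⟨hq⟩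
        have hwne : (w : ZMod q) ≠ 0 := by
          intro h0
          exact hqw' ((ZMod.natCast_eq_zero_iff w q).mp h0)
        refine ⟨(-(a : ZMod q) * (w : ZMod q)⁻¹).val, ZMod.val_lt _, ?_⟩
        rw [← ZMod.natCast_eq_zero_iff]
        push_cast
        rw [ZMod.natCast_zmod_val]
        field_simp
        ring
      -- i ≠ q - 1
      have hine : i ≠ q - 1 := by
        intro hi'
        rw [hi', hqw1] at hi
        have h1 : a + (q * w - w) = q * w - (w - a) := by omega
        rw [h1] at hi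
        have h2 : q ∣ q * w := Dvd.intro w rfl
        have h3 : q ∣ q * w - (q * w - (w - a)) := Nat.dvd_sub h2 hi
        have h4 : q * w - (q * w - (w - a)) = w - a := by omega
        rw [h4] at h3
        have := Nat.eq_zero_of_dvd_of_lt h3 hr2
        omega
      obtain ⟨hle, hdvd⟩ := hall i (by omega)
      have hqd := hqpos (a + i * w) (by omega) hle hi
      have hmul : w * q ∣ s (a + i * w) := Nat.Coprime.mul_dvd_of_dvd_of_dvd hcopw hdvd hqd
      have h1 := Nat.le_of_dvd (h.pos _ (by omega) hle) hmul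
      have h2 := h.le (a + i * w) (by omega) hle
      have h3 : w * q = q * w := mul_comm _ _
      omega
  rw [haeq] at hda
  -- position w is 1 mod x
  have hxs : x ∣ s w := by
    apply h.div 1 w x le_rfl hk hw0 hwk (by rw [hx])
    have : w ≡ 1 [MOD x] := by
      rw [hw]
      simp [Nat.ModEq]
    exact this.symm
  have hcopxw : Nat.Coprime x w := by
    rw [hw]
    simp
  have hmul : x * w ∣ s w := Nat.Coprime.mul_dvd_of_dvd_of_dvd hcopxw hxs hda
  have h1 := Nat.le_of_dvd (h.pos w hw0 hwk) hmul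
  have h2 := h.le w hw0 hwk
  have h3 : (q + 1) * w ≤ x * w := Nat.mul_le_mul_right w hqx
  have h4 : (q + 1) * w = q * w + w := by ring
  omega

/-- Reversal. -/
theorem rev {k : ℕ} {s : ℕ → ℕ} (h : W k s) : W k (fun i => s (k + 1 - i)) where
  pos i h1 h2 := h.pos _ (by omega) (by omega)
  le i h1 h2 := h.le _ (by omega) (by omega)
  inj i j h1 h2 h3 h4 h5 := by
    have := h.inj _ _ (by omega) (by omega) (by omega) (by omega) h5
    omega
  div i j m h1 h2 h3 h4 h5 h6 := by
    apply h.div (k + 1 - i) (k + 1 - j) m (by omega) (by omega) (by omega) (by omega) h5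
    rw [Nat.modEq_iff_dvd] at h6 ⊢
    have h7 : ((k + 1 - j : ℕ) : ℤ) - ((k + 1 - i : ℕ) : ℤ) = -((j : ℤ) - i) := by
      push_cast [Nat.cast_sub (by omega : j ≤ k + 1), Nat.cast_sub (by omega : i ≤ k + 1)]
      ring
    rw [h7]
    exact (dvd_neg).mpr h6

/-- One of the two end entries is `1`. -/
theorem ends {k : ℕ} {s : ℕ → ℕ} (h : W k s) (hk : 1 ≤ k) : s 1 = 1 ∨ s k = 1 := by
  by_contra hcon
  push Not at hcon
  obtain ⟨h1, h2⟩ := hcon
  have hp1 := h.pos 1 le_rfl hk
  have hpk := h.pos k hk le_rfl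
  rcases lt_trichotomy (s k) (s 1) with hlt | heq | hgt
  · exact core h hk (by omega) hlt
  · have := h.inj k 1 hk le_rfl le_rfl hk heq
    -- then k = 1, so s 1 ≤ 1
    have := h.le 1 le_rfl hk
    omega
  · have hr := rev h
    apply core hr hk
    · simp only [Nat.add_sub_cancel_left]; omega
    · simp only [Nat.add_sub_cancel_left, Nat.add_sub_cancel]; omega

/-- The slice of the multiples of `m`. -/
theorem slice {k : ℕ} {s : ℕ → ℕ} (h : W k s) {m a : ℕ} (hm : 0 < m) (hmk : m ≤ k)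
    (ha1 : 1 ≤ a) (ham : a ≤ m) (hda : m ∣ s a) :
    W (k / m) (fun i => s (a + (i - 1) * m) / m) := by
  have hpos : ∀ i, 1 ≤ i → i ≤ k / m → 1 ≤ a + (i - 1) * m ∧ a + (i - 1) * m ≤ k ∧
      m ∣ s (a + (i - 1) * m) := by
    intro i h1 h2
    have h3 : (i - 1 + 1) * m ≤ k / m * m := Nat.mul_le_mul_right m (by omega)
    have h4 : k / m * m ≤ k := Nat.div_mul_le_self k m
    have h5 : (i - 1 + 1) * m = (i - 1) * m + m := by ring
    have h6 : a + (i - 1) * m ≤ k := by omega
    refine ⟨by omega, h6, ?_⟩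
    apply h.div a (a + (i - 1) * m) m ha1 (le_trans ham hmk) (by omega) h6 hda
    have : a + (i - 1) * m ≡ a [MOD m] := by simp [Nat.ModEq]
    exact this.symm
  constructor
  · intro i h1 h2
    obtain ⟨h3, h4, h5⟩ := hpos i h1 h2
    exact Nat.div_pos (Nat.le_of_dvd (h.pos _ h3 h4) h5) hm
  · intro i h1 h2
    obtain ⟨h3, h4, h5⟩ := hpos i h1 h2
    exact Nat.div_le_div_right (h.le _ h3 h4)
  · intro i j h1 h2 h1' h2' hij
    obtain ⟨h3, h4, h5⟩ := hpos i h1 h2
    obtain ⟨h3', h4', h5'⟩ := hpos j h1' h2'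
    have h6 : s (a + (i - 1) * m) = s (a + (j - 1) * m) := by
      rw [← Nat.div_mul_cancel h5, ← Nat.div_mul_cancel h5', hij]
    have h7 := h.inj _ _ h3 h4 h3' h4' h6
    have h8 : (i - 1) * m = (j - 1) * m := by omega
    have := Nat.eq_of_mul_eq_mul_right hm h8
    omega
  · intro i j n h1 h2 h1' h2' hn hij
    obtain ⟨h3, h4, h5⟩ := hpos i h1 h2
    obtain ⟨h3', h4', h5'⟩ := hpos j h1' h2'
    have h6 : n * m ∣ s (a + (i - 1) * m) := by
      rw [← Nat.div_mul_cancel h5]
      exact Nat.mul_dvd_mul_right hn m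
    have h7 : n * m ∣ s (a + (j - 1) * m) := by
      apply h.div _ _ _ h3 h4 h3' h4' h6
      have h8 : i - 1 ≡ j - 1 [MOD n] := by
        have h9 : (i - 1) + 1 ≡ (j - 1) + 1 [MOD n] := by
          rw [Nat.sub_add_cancel h1, Nat.sub_add_cancel h1']; exact hij
        exact Nat.ModEq.add_right_cancel' 1 h9
      have h10 : (i - 1) * m ≡ (j - 1) * m [MOD n * m] := Nat.ModEq.mul_right' m h8
      exact h10.add_left a
    exact Nat.dvd_div_of_mul_dvd (by rw [mul_comm]; exact h7)

/-- Every value `m ≤ k` occurs among the first `m` or the last `m` entries. -/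
theorem main {k : ℕ} {s : ℕ → ℕ} (h : W k s) {m i : ℕ} (hm : 0 < m)
    (hi1 : 1 ≤ i) (hik : i ≤ k) (hi : s i = m) : i ≤ m ∨ k - m + 1 ≤ i := by
  have hmk : m ≤ k := hi ▸ h.le i hi1 hik
  obtain ⟨a, ha1, ham, hda, hak⟩ := first h hm hmk
  have hs := slice h hm hmk ha1 ham hda
  have hkm : 1 ≤ k / m := Nat.div_pos hmk hm
  rcases ends hs hkm with h1 | h1
  · -- first entry of the slice
    simp only [Nat.sub_self, zero_mul, add_zero] at h1
    have h2 : s a = m := by
      rw [← Nat.div_mul_cancel hda, h1, one_mul]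
    have := h.inj i a hi1 hik ha1 (le_trans ham hmk) (by rw [hi, h2])
    left; omega
  · -- last entry of the slice
    have h3 : (k / m - 1 + 1) * m = (k / m - 1) * m + m := by ring
    have h4 : k / m - 1 + 1 = k / m := by omega
    rw [h4] at h3
    have h5 : k / m * m ≤ k := Nat.div_mul_le_self k m
    have h6 : a + (k / m - 1) * m ≤ k := by omega
    have h7 : m ∣ s (a + (k / m - 1) * m) := by
      apply h.div a (a + (k / m - 1) * m) m ha1 (le_trans ham hmk) (by omega) h6 hda
      have : a + (k / m - 1) * m ≡ a [MOD m] := by simp [Nat.ModEq]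
      exact this.symm
    have h8 : s (a + (k / m - 1) * m) = m := by
      rw [← Nat.div_mul_cancel h7, h1, one_mul]
    have := h.inj i (a + (k / m - 1) * m) hi1 hik (by omega) h6 (by rw [hi, h8])
    right; omega

/-- **Positions of small terms in weakly consecutive sequences.**
Let `k ≥ 1` and let `σ` be a permutation of `[k] = {1, …, k}` which is a weakly consecutive
sequence: whenever `m ≥ 1` divides both `σ i` and `i - j`, it divides `σ j`.  Then every positive
integer `m < k / 2` occurs among the first `m` or among the last `m` entries of `σ`. -/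
theorem result (k : ℕ) (hk : 1 ≤ k) (σ : Equiv.Perm (Set.Icc 1 k))
    (hσ : ∀ i j : Set.Icc 1 k, ∀ m : ℕ, 0 < m →
      m ∣ (σ i : ℕ) → (m : ℤ) ∣ ((i : ℕ) : ℤ) - ((j : ℕ) : ℤ) → m ∣ (σ j : ℕ))
    (m : Set.Icc 1 k) (hm : ((m : ℕ) : ℝ) < (k : ℝ) / 2) :
    ((σ.symm m : Set.Icc 1 k) : ℕ) ∈ Set.Icc 1 (m : ℕ) ∪ Set.Icc (k - (m : ℕ) + 1) k := by
  classical
  let s : ℕ → ℕ := fun i => if h : i ∈ Set.Icc 1 k then (σ ⟨i, h⟩ : ℕ) else 0
  have hsv : ∀ i (h : i ∈ Set.Icc 1 k), s i = (σ ⟨i, h⟩ : ℕ) := by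
    intro i h
    simp only [s, dif_pos h]
  have hW : W k s := by
    constructor
    · intro i h1 h2
      rw [hsv i ⟨h1, h2⟩]
      exact (σ ⟨i, ⟨h1, h2⟩⟩).2.1
    · intro i h1 h2
      rw [hsv i ⟨h1, h2⟩]
      exact (σ ⟨i, ⟨h1, h2⟩⟩).2.2
    · intro i j h1 h2 h3 h4 hij
      rw [hsv i ⟨h1, h2⟩, hsv j ⟨h3, h4⟩] at hij
      have := σ.injective (Subtype.ext hij)
      exact congrArg Subtype.val this
    · intro i j n h1 h2 h3 h4 hn hij
      rw [hsv i ⟨h1, h2⟩] at hn
      rw [hsv j ⟨h3, h4⟩]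
      have hn0 : 0 < n := by
        rcases Nat.eq_zero_or_pos n with h0 | h0
        · subst h0
          have h5 := (σ ⟨i, ⟨h1, h2⟩⟩).2.1
          have h6 := Nat.eq_zero_of_zero_dvd hn
          omega
        · exact h0
      apply hσ ⟨i, ⟨h1, h2⟩⟩ ⟨j, ⟨h3, h4⟩⟩ n hn0 hn
      exact (Nat.modEq_iff_dvd.mp hij.symm)
  have hi := (σ.symm m).2
  have hval : s ((σ.symm m : Set.Icc 1 k) : ℕ) = (m : ℕ) := by
    rw [hsv _ hi]
    simp
  have := main hW (m := (m : ℕ)) m.2.1 hi.1 hi.2 hval
  rcases this with h1 | h1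
  · left; exact ⟨hi.1, h1⟩
  · right; exact ⟨h1, hi.2⟩

end Pool.Agent.Results.MP_a4c3d5_co.SmallTerms
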